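import Pool.Agent.H69.KZ.Stm

/-! Crew KZ: part BAS. -/

set_option autoImplicit false
open Finset

namespace KZ

namespace BAS_aux

theorem c_zero (r : ℕ) (m : ℤ) : c r 0 m = if m = 0 then 1 else 0 := rfl

theorem c_succ (r n : ℕ) (m : ℤ) : c r (n + 1) m = ∑ j ∈ Finset.range r, c r n (m - (j : ℤ)) := rfl

end BAS_aux

open BAS_aux in
theorem BAS_proved : S_BAS := by
  intro r n hr
  induction n with
  | zero =>
    refine ⟨?_, ?_, ?_, ?_, ?_⟩
    · intro m
      rw [c_zero]
      split_ifs <;> norm_num
    · intro m hm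
      rw [c_zero, if_neg (by omega)]
    · intro m hm
      rw [c_zero, if_neg (by simp at hm; omega)]
    · intro m h0 h1
      rw [c_zero, if_pos (by simp at h1; omega)]
    · intro m
      rw [c_zero, c_zero]
      have : ((0 : ℕ) : ℤ) * ((r : ℤ) - 1) - m = 0 ↔ m = 0 := by
        simp
      by_cases h : m = 0
      · rw [if_pos (this.2 h), if_pos h]
      · rw [if_neg (fun h' => h (this.1 h')), if_neg h]
  | succ n ih =>
    obtain ⟨h1, h2, h3, h4, h5⟩ := ih
    have hexp : (((n + 1 : ℕ) : ℤ)) * ((r : ℤ) - 1) = (n : ℤ) * ((r : ℤ) - 1) + ((r : ℤ) - 1) := by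
      push_cast; ring
    refine ⟨?_, ?_, ?_, ?_, ?_⟩
    · intro m
      rw [c_succ]
      exact Finset.sum_nonneg fun j _ => h1 _
    · intro m hm
      rw [c_succ]
      apply Finset.sum_eq_zero
      intro j _
      apply h2
      omega
    · intro m hm
      rw [c_succ]
      apply Finset.sum_eq_zero
      intro j hj
      have hj' := Finset.mem_range.1 hj
      apply h3
      rw [hexp] at hm
      have : (j : ℤ) ≤ (r : ℤ) - 1 := by omega
      linarith
    · intro m hm0 hm1
      rw [c_succ]
      rw [hexp] at hm1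
      have hN : 0 ≤ (n : ℤ) * ((r : ℤ) - 1) := mul_nonneg (by positivity) (by omega)
      obtain ⟨j, hj, hj0, hj1⟩ : ∃ j ∈ Finset.range r, 0 ≤ m - (j : ℤ) ∧
          m - (j : ℤ) ≤ (n : ℤ) * ((r : ℤ) - 1) := by
        rcases le_total m ((r : ℤ) - 1) with h | h
        · refine ⟨m.toNat, ?_, ?_, ?_⟩
          · rw [Finset.mem_range]; omega
          · omega
          · have : m - (m.toNat : ℤ) = 0 := by omega
            rw [this]; exact hN
        · refine ⟨r - 1, ?_, ?_, ?_⟩
          · rw [Finset.mem_range]; omega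
          · omega
          · have : ((r - 1 : ℕ) : ℤ) = (r : ℤ) - 1 := by omega
            rw [this]; linarith
      refine (h4 _ hj0 hj1).trans ?_
      exact Finset.single_le_sum (f := fun j : ℕ => c r n (m - (j : ℤ))) (fun j _ => h1 _) hj
    · intro m
      rw [c_succ, c_succ, ← Finset.sum_range_reflect]
      apply Finset.sum_congr rfl
      intro j hj
      have hj' := Finset.mem_range.1 hj
      rw [← h5]
      congr 1
      have : ((r - 1 - j : ℕ) : ℤ) = (r : ℤ) - 1 - j := by omega
      rw [this, hexp]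
      ring

end KZ
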