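import Pool.Agent.H69.KZ.Stm

/-! Crew KZ: part GLI. -/

set_option autoImplicit false
open Finset

namespace KZ

namespace GLI_aux

theorem P_nonneg (r : ℕ) {x : ℝ} (hx : 0 < x) : 0 ≤ P r x :=
  Finset.sum_nonneg fun j _ => (pow_pos hx j).le

theorem one_le_P {r : ℕ} (hr : 1 ≤ r) {x : ℝ} (hx : 0 < x) : 1 ≤ P r x := by
  have := Finset.single_le_sum (f := fun j : ℕ => x ^ j) (fun j _ => (pow_pos hx j).le)
    (Finset.mem_range.2 hr : 0 ∈ Finset.range r)
  simpa [P] using this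

end GLI_aux

open GLI_aux in
theorem GLI_proved (hMOD : S_MOD) (hUPB : S_UPB) (hAMG : S_AMG) (hRAT : S_RAT) : S_GLI := by
  intro n k d r s M y hs hsr hMd hM1 hM hy
  have hr : 1 ≤ r := by omega
  obtain ⟨hy0, -, -⟩ := hRAT r n M y hr hM1 hM hy
  have hmod := hMOD r n M y hr hM1 hM hy
  have hamg := hAMG s r y hs hsr.le (by omega) hy0
  set x := y ^ ((r : ℝ) / s) with hx
  have hx0 : 0 < x := Real.rpow_pos_of_pos hy0 _
  have hupb := hUPB s n ((s : ℤ) * ((d : ℤ) + 1) - k) x hs hx0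
  have hs0 : (0 : ℝ) < s := by exact_mod_cast hs
  have hMR : (M : ℝ) = r * ((d : ℝ) + 1) - k := by exact_mod_cast hMd
  set e := (k : ℝ) * ((r : ℝ) - s) / s with he
  have hxm : x ^ ((s : ℤ) * ((d : ℤ) + 1) - k) = y ^ M / y ^ e := by
    rw [← Real.rpow_intCast, hx, ← Real.rpow_mul hy0.le, ← Real.rpow_natCast y M,
      ← Real.rpow_sub hy0]
    congr 1
    push_cast
    rw [hMR, he]
    field_simp
    ring
  rw [hxm] at hupb
  have hP1 : 1 ≤ P r y := one_le_P hr hy0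
  have hP0 : 0 < P r y := by linarith
  set w := 1 - ((r : ℝ) - s) / (r - 1) * (1 - 1 / P r y) with hw
  have hPw : P r y - ((r : ℝ) - s) / (r - 1) * (P r y - 1) = P r y * w := by
    rw [hw]
    field_simp
  rw [hPw] at hamg
  have h1 : P s x ^ n ≤ (P r y * w) ^ n := pow_le_pow_left₀ (P_nonneg s hx0) hamg n
  have hw0 : 0 ≤ w := by
    have : 0 ≤ P r y * w := (P_nonneg s hx0).trans hamg
    exact nonneg_of_mul_nonneg_right this hP0
  rw [mul_pow] at h1
  have h2 : P r y ^ n * w ^ n ≤ ((n * ((r : ℝ) - 1) + 1) * c r n M * y ^ M) * w ^ n :=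
    mul_le_mul_of_nonneg_right hmod (pow_nonneg hw0 n)
  have h3 := hupb.trans (h1.trans h2)
  have hyM : 0 < y ^ M := pow_pos hy0 M
  have hye : 0 < y ^ e := Real.rpow_pos_of_pos hy0 e
  have h4 := mul_le_mul_of_nonneg_right h3 hye.le
  have h5 : c s n ((s : ℤ) * ((d : ℤ) + 1) - k) * (y ^ M / y ^ e) * y ^ e =
      c s n ((s : ℤ) * ((d : ℤ) + 1) - k) * y ^ M := by
    field_simp
  rw [h5] at h4
  have h6 : c s n ((s : ℤ) * ((d : ℤ) + 1) - k) * y ^ M ≤
      (c r n M * (n * ((r : ℝ) - 1) + 1) * y ^ e * w ^ n) * y ^ M := by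
    refine h4.trans (le_of_eq ?_)
    ring
  exact le_of_mul_le_mul_right h6 hyM

end KZ
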