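import Pool.Agent.H69.KZ.Stm

/-! Crew KZ: part MOD. -/

set_option autoImplicit false
open Finset

namespace KZ

namespace MOD48_aux

theorem low (hBAS : S_BAS) (hTP2 : S_TP2) (r n M : ℕ) (y : ℝ) (hr : 1 ≤ r) (hM1 : 1 ≤ M)
    (hM : M ≤ n * (r - 1)) (hy : y = c r n ((M : ℤ) - 1) / c r n M) :
    ∀ t : ℕ, t ≤ M → c r n ((M - t : ℕ) : ℤ) * y ^ (M - t) ≤ c r n M * y ^ M := by
  obtain ⟨h1, h2, h3, h4, h5⟩ := hBAS r n hr
  have hN : ((n * (r - 1) : ℕ) : ℤ) = (n : ℤ) * ((r : ℤ) - 1) := by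
    rw [Nat.cast_mul, Nat.cast_sub hr, Nat.cast_one]
  have hcM : 1 ≤ c r n M := h4 M (by positivity) (by rw [← hN]; exact_mod_cast hM)
  have hy0 : 0 ≤ y := by rw [hy]; exact div_nonneg (h1 _) (h1 _)
  have hyM : c r n ((M : ℤ) - 1) = y * c r n M := by
    rw [hy, div_mul_cancel₀]
    linarith
  intro t
  induction t with
  | zero => intro _; simp
  | succ t ih =>
    intro ht
    refine le_trans ?_ (ih (by omega))
    have e1 : M - t = (M - (t + 1)) + 1 := by omega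
    rw [e1, pow_succ]
    set q := M - (t + 1) with hq
    -- c q ≤ c (q + 1) y
    have h6 : c r n (q : ℤ) * c r n M ≤ c r n ((q + 1 : ℕ) : ℤ) * c r n ((M : ℤ) - 1) := by
      rcases Nat.eq_or_lt_of_le (show q + 1 ≤ M by omega) with h | h
      · have h7 : (q : ℤ) = (M : ℤ) - 1 := by omega
        have h8 : ((q + 1 : ℕ) : ℤ) = (M : ℤ) := by omega
        rw [h7, h8, mul_comm]
      · have h9 := hTP2 r n ((q + 1 : ℕ) : ℤ) ((M : ℤ) - 1) 1 (by omega)
        have e2 : ((q + 1 : ℕ) : ℤ) - ((1 : ℕ) : ℤ) = (q : ℤ) := by push_cast; ring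
        have e3 : (M : ℤ) - 1 + ((1 : ℕ) : ℤ) = (M : ℤ) := by push_cast; ring
        rw [e2, e3] at h9
        exact h9
    rw [hyM] at h6
    have h7 : c r n (q : ℤ) ≤ c r n ((q + 1 : ℕ) : ℤ) * y := by
      have h8 : c r n (q : ℤ) * c r n M ≤ (c r n ((q + 1 : ℕ) : ℤ) * y) * c r n M := by
        linarith
      exact le_of_mul_le_mul_right h8 (by linarith)
    calc c r n (q : ℤ) * y ^ q ≤ (c r n ((q + 1 : ℕ) : ℤ) * y) * y ^ q :=
          mul_le_mul_of_nonneg_right h7 (pow_nonneg hy0 _)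
      _ = _ := by ring

theorem high (hBAS : S_BAS) (hTP2 : S_TP2) (r n M : ℕ) (y : ℝ) (hr : 1 ≤ r) (hM1 : 1 ≤ M)
    (hM : M ≤ n * (r - 1)) (hy : y = c r n ((M : ℤ) - 1) / c r n M) :
    ∀ t : ℕ, c r n ((M + t : ℕ) : ℤ) * y ^ (M + t) ≤ c r n M * y ^ M := by
  obtain ⟨h1, h2, h3, h4, h5⟩ := hBAS r n hr
  have hN : ((n * (r - 1) : ℕ) : ℤ) = (n : ℤ) * ((r : ℤ) - 1) := by
    rw [Nat.cast_mul, Nat.cast_sub hr, Nat.cast_one]
  have hcM : 1 ≤ c r n M := h4 M (by positivity) (by rw [← hN]; exact_mod_cast hM)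
  have hy0 : 0 ≤ y := by rw [hy]; exact div_nonneg (h1 _) (h1 _)
  have hyM : c r n ((M : ℤ) - 1) = y * c r n M := by
    rw [hy, div_mul_cancel₀]
    linarith
  intro t
  induction t with
  | zero => simp
  | succ t ih =>
    refine le_trans ?_ ih
    have h9 := hTP2 r n (M : ℤ) ((M + t : ℕ) : ℤ) 1 (by push_cast; omega)
    have e2 : (M : ℤ) - ((1 : ℕ) : ℤ) = (M : ℤ) - 1 := by push_cast; ring
    have e3 : ((M + t : ℕ) : ℤ) + ((1 : ℕ) : ℤ) = ((M + (t + 1) : ℕ) : ℤ) := by push_cast; ring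
    rw [e2, e3, hyM] at h9
    have h7 : y * c r n ((M + (t + 1) : ℕ) : ℤ) ≤ c r n ((M + t : ℕ) : ℤ) := by
      have h8 : (y * c r n ((M + (t + 1) : ℕ) : ℤ)) * c r n M ≤
          c r n ((M + t : ℕ) : ℤ) * c r n M := by
        linarith
      exact le_of_mul_le_mul_right h8 (by linarith)
    have e4 : M + (t + 1) = (M + t) + 1 := by ring
    calc c r n ((M + (t + 1) : ℕ) : ℤ) * y ^ (M + (t + 1))
        = (y * c r n ((M + (t + 1) : ℕ) : ℤ)) * y ^ (M + t) := by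
          rw [e4, pow_succ]; ring
      _ ≤ _ := mul_le_mul_of_nonneg_right h7 (pow_nonneg hy0 _)

end MOD48_aux

open MOD48_aux in
theorem MOD_proved (hBAS : S_BAS) (hTP2 : S_TP2) (hEVL : S_EVL) : S_MOD := by
  intro r n M y hr hM1 hM hy
  rw [← hEVL r n y hr]
  have h : ∀ m ∈ Finset.range (n * (r - 1) + 1), c r n (m : ℤ) * y ^ m ≤ c r n M * y ^ M := by
    intro m _
    rcases le_total m M with h | h
    · have := low hBAS hTP2 r n M y hr hM1 hM hy (M - m) (by omega)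
      have e : M - (M - m) = m := by omega
      rw [e] at this
      exact this
    · have := high hBAS hTP2 r n M y hr hM1 hM hy (m - M)
      have e : M + (m - M) = m := by omega
      rw [e] at this
      exact this
  have h2 := Finset.sum_le_card_nsmul _ _ _ h
  rw [Finset.card_range, nsmul_eq_mul] at h2
  refine h2.trans (le_of_eq ?_)
  rw [Nat.cast_add, Nat.cast_mul, Nat.cast_sub hr]
  push_cast
  ring

end KZ
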